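import Pool.Agent.E8helper19.EN.Main

/-!
# Project EN: finitely many charts
-/

set_option autoImplicit false
open MeasureTheory Filter Topology Complex Set ProbabilityTheory
open scoped ContDiff ENNReal NNReal Real

namespace Pool.Agent.E8helper19.EN

noncomputable section

/-- energies of nearby functions -/
lemma Hy.lip {Ω : Set ℂ} {ρ : ℂ → ℝ} {lam : ℕ → ℝ} {u : ℕ → ℂ → ℝ} {φ : ℂ → ℝ} (h1 : S_IBP)
    (H : Hy Ω ρ lam u φ) : ∃ E : ℝ, 0 ≤ E ∧ ∀ᶠ n in atTop, ∀ (g g' : ℝ → ℝ) (δ : ℝ),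
      Continuous g → Continuous g' → 0 ≤ δ → (∀ x, |g x - g' x| ≤ δ) →
      |En φ (lam n) (u n) g - En φ (lam n) (u n) g'| ≤ δ * E := by
  obtain ⟨E, hE0, hE⟩ := H.tot h1
  refine ⟨E, hE0, ?_⟩
  filter_upwards [hE] with n hn g g' δ hg hg' hδ0 hdd
  obtain ⟨hl, ig, hEn⟩ := hn
  have cu : ContinuousOn (u n) (tsupport φ) := (H.su n).continuousOn.mono H.tφ
  have ii : ∀ k : ℝ → ℝ, Continuous k → Integrable (fun z => φ z * (k (u n z) * gsq (u n) z)) := by
    intro k hk
    have h0 : ∀ z, z ∉ tsupport φ → φ z * (k (u n z) * gsq (u n) z) = 0 := fun z hz => by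
      rw [image_eq_zero_of_notMem_tsupport hz, zero_mul]
    have hd : ∀ v : ℂ, ContinuousOn (fun z => fderiv ℝ (u n) z v) Ω := fun v =>
      (((H.su n).fderiv_of_isOpen H.oΩ (m := ∞) (by simp)).continuousOn).clm_apply
        continuousOn_const
    have hgq : ContinuousOn (gsq (u n)) Ω := ((hd 1).pow 2).add ((hd I).pow 2)
    exact (int_on H.cφ.isCompact (H.sφ.continuous.continuousOn.mul
      ((hk.comp_continuousOn cu).mul (hgq.mono H.tφ))) h0).1
  unfold En
  rw [← mul_sub, ← integral_sub (ii g hg) (ii g' hg'), abs_mul,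
    abs_of_pos (inv_pos.2 hl)]
  calc (lam n)⁻¹ * |∫ z, (φ z * (g (u n z) * gsq (u n) z) - φ z * (g' (u n z) * gsq (u n) z))|
      ≤ (lam n)⁻¹ * ∫ z, δ * (φ z * gsq (u n) z) := by
        refine mul_le_mul_of_nonneg_left ?_ (inv_pos.2 hl).le
        rw [← Real.norm_eq_abs]
        refine norm_integral_le_of_norm_le (ig.const_mul δ) (Eventually.of_forall fun z => ?_)
        have e : φ z * (g (u n z) * gsq (u n) z) - φ z * (g' (u n z) * gsq (u n) z) =
            (g (u n z) - g' (u n z)) * (φ z * gsq (u n) z) := by ring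
        have hq : 0 ≤ φ z * gsq (u n) z := mul_nonneg (H.φ0 z) (by unfold gsq; positivity)
        rw [e, norm_mul, Real.norm_eq_abs, Real.norm_eq_abs, abs_of_nonneg hq]
        exact mul_le_mul_of_nonneg_right (hdd _) hq
    _ = δ * ((lam n)⁻¹ * ∫ z, φ z * gsq (u n) z) := by
        rw [integral_const_mul]
        ring
    _ ≤ δ * E := mul_le_mul_of_nonneg_left hEn hδ0

/-- subsequences -/
lemma Hy.sub {Ω : Set ℂ} {ρ : ℂ → ℝ} {lam : ℕ → ℝ} {u : ℕ → ℂ → ℝ} {φ : ℂ → ℝ}
    (H : Hy Ω ρ lam u φ) {σ : ℕ → ℕ} (hσ : StrictMono σ) :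
    Hy Ω ρ (fun n => lam (σ n)) (fun n => u (σ n)) φ where
  oΩ := H.oΩ
  sρ := H.sρ
  pρ := H.pρ
  ll := H.ll.comp hσ.tendsto_atTop
  su := fun n => H.su _
  eq := fun n => H.eq _
  bd := fun K hK hKΩ => by
    obtain ⟨C, hC⟩ := H.bd K hK hKΩ
    exact ⟨C, hσ.tendsto_atTop.eventually hC⟩
  sφ := H.sφ
  cφ := H.cφ
  tφ := H.tφ
  φ0 := H.φ0

variable {ι : Type} [Fintype ι] {Ω : ι → Set ℂ} {ρ φ : ι → ℂ → ℝ} {lam : ℕ → ℝ}
  {u : ι → ℕ → ℂ → ℝ}

/-- the sum of the laws -/
def MM (Ω : ι → Set ℂ) (ρ φ : ι → ℂ → ℝ) (u : ι → ℕ → ℂ → ℝ) (n : ℕ) : Measure ℝ :=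
  ∑ i, Pool.Agent.Y139.PD.mu (Ω i) (φ i) (ρ i) (u i n)

/-- the values -/
def VV (ρ φ : ι → ℂ → ℝ) (u : ι → ℕ → ℂ → ℝ) (n : ℕ) (g : ℝ → ℝ) : ℝ :=
  ∑ i, ∫ z, φ i z * (g (u i n z) * ρ i z)

/-- the energies -/
def EE (φ : ι → ℂ → ℝ) (lam : ℕ → ℝ) (u : ι → ℕ → ℂ → ℝ) (n : ℕ) (g : ℝ → ℝ) : ℝ :=
  ∑ i, En (φ i) (lam n) (u i n) g

lemma fam_int (H : ∀ i, Hy (Ω i) (ρ i) lam (u i) (φ i)) (n : ℕ) {g : ℝ → ℝ}
    (hg : Continuous g) : Integrable g (MM Ω ρ φ u n) := by
  unfold MM
  rw [integrable_finsetSum_measure]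
  exact fun i _ => (H i).mu_i n hg

lemma fam_fin (H : ∀ i, Hy (Ω i) (ρ i) lam (u i) (φ i)) (n : ℕ) :
    IsFiniteMeasure (MM Ω ρ φ u n) := by
  have h := fam_int H n (g := fun _ => 1) continuous_const
  rcases (integrable_const_iff.1 h) with h | h
  · exact absurd h one_ne_zero
  · exact h

lemma fam_mint (H : ∀ i, Hy (Ω i) (ρ i) lam (u i) (φ i)) (n : ℕ) {g : ℝ → ℝ}
    (hg : Continuous g) : ∫ x, g x ∂(MM Ω ρ φ u n) = VV ρ φ u n g := by
  unfold MM VV
  rw [integral_finsetSum_measure fun i _ => (H i).mu_i n hg]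
  refine Finset.sum_congr rfl fun i _ => ?_
  rw [Pool.Agent.Y139.PD.mu_int (H i).oΩ ((H i).su n).continuousOn
    (⟨(H i).sφ, (H i).cφ, (H i).tφ, (H i).φ0⟩ :
      Pool.Agent.Results.MP_a52643_an.AbsoluteContinuity.Test (Ω i) (φ i)) (H i).sρ (H i).pρ hg]
  refine integral_congr_ae (Eventually.of_forall fun z => ?_)
  simp only
  ring

lemma fam_unif (H : ∀ i, Hy (Ω i) (ρ i) lam (u i) (φ i)) : ∃ K : ℝ, 0 ≤ K ∧ ∀ᶠ n in atTop,
    ∫ x, x ^ 2 ∂(MM Ω ρ φ u n) ≤ K ∧
    ∀ (P : ℝ → ℝ) (J : ℝ), 0 ≤ J → Continuous P → (∀ x, |P x| ≤ J * (1 + x ^ 2)) →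
      |∑ i, ∫ z, lapl (φ i) z * P (u i n z)| ≤ K * J := by
  choose K hK0 hK using fun i => (H i).unif
  refine ⟨∑ i, K i, Finset.sum_nonneg fun i _ => hK0 i, ?_⟩
  filter_upwards [eventually_all.2 hK] with n hn
  constructor
  · rw [fam_mint H n (g := fun x => x ^ 2) (by fun_prop)]
    unfold VV
    refine Finset.sum_le_sum fun i _ => le_trans (le_of_eq ?_) (hn i).1
    refine integral_congr_ae (Eventually.of_forall fun z => ?_)
    simp only
    ring
  · intro P J hJ hP hb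
    refine (Finset.abs_sum_le_sum_abs _ _).trans ?_
    rw [Finset.sum_mul]
    exact Finset.sum_le_sum fun i _ => (hn i).2 P J hJ hP hb

lemma fam_id (h1 : S_IBP) (H : ∀ i, Hy (Ω i) (ρ i) lam (u i) (φ i)) {n : ℕ} (hl : 0 < lam n)
    {G : ℝ → ℝ} (hG : ContDiff ℝ ∞ G) :
    EE φ lam u n (deriv G) = (∫ x, x * G x ∂(MM Ω ρ φ u n)) +
      (lam n)⁻¹ * ∑ i, ∫ z, lapl (φ i) z * ∫ t in (0 : ℝ)..u i n z, G t := by
  rw [fam_mint H n (g := fun x => x * G x) (continuous_id.mul hG.continuous)]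
  unfold EE VV
  rw [Finset.mul_sum, ← Finset.sum_add_distrib]
  refine Finset.sum_congr rfl fun i _ => ?_
  rw [((H i).id h1 hl hG).2]
  congr 1
  refine integral_congr_ae (Eventually.of_forall fun z => ?_)
  simp only
  ring

lemma fam_lip (h1 : S_IBP) (H : ∀ i, Hy (Ω i) (ρ i) lam (u i) (φ i)) :
    ∃ E : ℝ, 0 ≤ E ∧ ∀ᶠ n in atTop, ∀ (g g' : ℝ → ℝ) (δ : ℝ),
      Continuous g → Continuous g' → 0 ≤ δ → (∀ x, |g x - g' x| ≤ δ) →
      |EE φ lam u n g - EE φ lam u n g'| ≤ δ * E := by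
  choose E hE0 hE using fun i => (H i).lip h1
  refine ⟨∑ i, E i, Finset.sum_nonneg fun i _ => hE0 i, ?_⟩
  filter_upwards [eventually_all.2 hE] with n hn g g' δ hg hg' hδ hd
  unfold EE
  rw [← Finset.sum_sub_distrib, Finset.mul_sum]
  refine (Finset.abs_sum_le_sum_abs _ _).trans ?_
  exact Finset.sum_le_sum fun i _ => hn i g g' δ hg hg' hδ hd

/-- everything about limit laws -/
theorem fam_main [Nonempty ι] (h1 : S_IBP) (h2 : S_VAG) (h3 : S_FUB)
    (H : ∀ i, Hy (Ω i) (ρ i) lam (u i) (φ i)) {ν : Measure ℝ}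
    (hν : IsFiniteMeasure ν) (hlim : ∀ g : ℝ → ℝ, Continuous g → HasCompactSupport g →
      Tendsto (fun n => VV ρ φ u n g) atTop (𝓝 (∫ x, g x ∂ν))) :
    ν.real univ = ∑ i, ∫ z, φ i z * ρ i z ∧ Integrable (fun x => x ^ 2) ν ∧ ∫ x, x ∂ν = 0 ∧
      (∀ F : ℝ → ℝ, Continuous F → (∃ C : ℝ, ∀ x, |F x| ≤ C * (1 + |x|)) →
        Tendsto (fun n => VV ρ φ u n F) atTop (𝓝 (∫ x, F x ∂ν))) ∧
      ∀ g : ℝ → ℝ, Continuous g → HasCompactSupport g →
        Tendsto (fun n => EE φ lam u n g) atTop (𝓝 (∫ t, g t * HH ν t)) := by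
  have Hll : Tendsto lam atTop atTop := (H (Classical.arbitrary ι)).ll
  obtain ⟨K, hK0, hK⟩ := fam_unif H
  have fin : ∀ n, IsFiniteMeasure (MM Ω ρ φ u n) := fam_fin H
  obtain ⟨a1, a2, -, a4⟩ := h2 (fun n => MM Ω ρ φ u n) ν K
    (∑ i, ∫ z, φ i z * ρ i z) fin hν
    (by
      filter_upwards [hK] with n hn
      exact ⟨fam_int H n (by fun_prop), hn.1⟩)
    (fun n => by
      have := fam_mint H n (g := fun _ => 1) continuous_const
      unfold VV at this
      simpa using this)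
    (fun g hg hc => by
      refine (hlim g hg hc).congr fun n => ?_
      rw [fam_mint H n hg])
  have ix : Integrable (fun x : ℝ => x) ν := by
    have h : Integrable (fun x : ℝ => 1 + x ^ 2) ν := (integrable_const 1).add a2
    refine h.mono' (by fun_prop) (Eventually.of_forall fun x => ?_)
    rw [Real.norm_eq_abs, abs_le]
    constructor <;> nlinarith [sq_nonneg (x - 1), sq_nonneg (x + 1)]
  have linv : Tendsto (fun n => (lam n)⁻¹) atTop (𝓝 0) := tendsto_inv_atTop_zero.comp Hll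
  -- remainders tend to zero
  have rem : ∀ (P : ℝ → ℝ) (J : ℝ), 0 ≤ J → Continuous P → (∀ x, |P x| ≤ J * (1 + x ^ 2)) →
      Tendsto (fun n => (lam n)⁻¹ * ∑ i, ∫ z, lapl (φ i) z * P (u i n z)) atTop (𝓝 0) := by
    intro P J hJ hP hb
    have h : Tendsto (fun n => (lam n)⁻¹ * (K * J)) atTop (𝓝 0) := by
      have := linv.mul_const (K * J)
      rwa [zero_mul] at this
    refine squeeze_zero_norm' ?_ h
    filter_upwards [hK, Hll.eventually_gt_atTop 0] with n hn hl
    rw [norm_mul, Real.norm_eq_abs, Real.norm_eq_abs, abs_of_pos (inv_pos.2 hl)]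
    exact mul_le_mul_of_nonneg_left (hn.2 P J hJ hP hb) (inv_pos.2 hl).le
  -- mean zero
  have mz : ∫ x, x ∂ν = 0 := by
    have l1 := a4 (fun x => x) continuous_id ⟨1, fun x => by linarith [abs_nonneg x]⟩
    have l2 := rem (fun x => x) 1 zero_le_one continuous_id (fun x => by
      rw [abs_le]
      constructor <;> nlinarith [sq_nonneg (x - 1), sq_nonneg (x + 1)])
    have l3 : Tendsto (fun n => ∫ x, x ∂(MM Ω ρ φ u n)) atTop (𝓝 (-0)) := by
      refine l2.neg.congr' ?_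
      filter_upwards [Hll.eventually_gt_atTop 0] with n hl
      have hG : ContDiff ℝ ∞ (fun _ : ℝ => (1 : ℝ)) := contDiff_const
      have e := fam_id h1 H hl hG
      unfold EE En at e
      simp only [deriv_const', zero_mul, mul_zero, integral_zero, mul_one,
        intervalIntegral.integral_const, sub_zero, smul_eq_mul, Finset.sum_const_zero] at e
      linarith
    rw [neg_zero] at l3
    exact tendsto_nhds_unique l1 l3
  obtain ⟨-, b2, b3⟩ := h3 ν hν ix
  -- smooth functions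
  have sm : ∀ g : ℝ → ℝ, ContDiff ℝ ∞ g → HasCompactSupport g →
      Tendsto (fun n => EE φ lam u n g) atTop (𝓝 (∫ t, g t * HH ν t)) := by
    intro g hg hc
    have gi : Integrable g := hg.continuous.integrable_of_hasCompactSupport hc
    set G : ℝ → ℝ := fun x => ∫ t in Iic x, g t with hGdef
    set J : ℝ := ∫ t, |g t| with hJ
    have hJ0 : 0 ≤ J := integral_nonneg fun _ => abs_nonneg _
    have hGb : ∀ x, |G x| ≤ J := fun x => by
      rw [← Real.norm_eq_abs]
      refine (norm_integral_le_integral_norm _).trans ?_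
      exact setIntegral_le_integral gi.norm (ae_of_all _ fun _ => norm_nonneg _)
    have hGe : ∀ x, G x = G 0 + ∫ t in (0 : ℝ)..x, g t := fun x => by
      have := intervalIntegral.integral_Iic_sub_Iic (f := g) (a := 0) (b := x) (μ := volume)
        gi.integrableOn gi.integrableOn
      simp only [hGdef]
      linarith
    have hGd : ∀ x, HasDerivAt G (g x) x := fun x => by
      have e : G = fun x => G 0 + ∫ t in (0 : ℝ)..x, g t := funext hGe
      rw [e]
      exact (intervalIntegral.integral_hasDerivAt_right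
        (hg.continuous.intervalIntegrable _ _)
        (hg.continuous.stronglyMeasurableAtFilter _ _) hg.continuous.continuousAt).const_add _
    have hGd' : deriv G = g := funext fun x => (hGd x).deriv
    have hGs : ContDiff ℝ ∞ G := by
      rw [contDiff_infty_iff_deriv]
      exact ⟨fun x => (hGd x).differentiableAt, by rw [hGd']; exact hg⟩
    have l1 := a4 (fun x => x * G x) (continuous_id.mul hGs.continuous) ⟨J, fun x => by
      rw [abs_mul]
      have := hGb x
      nlinarith [abs_nonneg x, mul_le_mul_of_nonneg_left this (abs_nonneg x)]⟩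
    have e1 : ∫ x, x * G x ∂ν = ∫ t, g t * HH ν t := (b3 g hg.continuous hc).2
    rw [e1] at l1
    have l2 := rem (fun x => ∫ t in (0 : ℝ)..x, G t) J hJ0
      (intervalIntegral.continuous_primitive (fun a b => hGs.continuous.intervalIntegrable a b) 0)
      (fun x => by
        have h := intervalIntegral.norm_integral_le_of_norm_le_const (a := 0) (b := x) (f := G)
          (C := J) (fun t _ => by rw [Real.norm_eq_abs]; exact hGb t)
        rw [Real.norm_eq_abs, sub_zero] at h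
        refine h.trans (mul_le_mul_of_nonneg_left ?_ hJ0)
        rw [abs_le]
        constructor <;> nlinarith [sq_nonneg (x - 1), sq_nonneg (x + 1)])
    have l3 := l1.add l2
    rw [add_zero] at l3
    refine l3.congr' ?_
    filter_upwards [Hll.eventually_gt_atTop 0] with n hl
    have e := fam_id h1 H hl hGs
    rw [hGd'] at e
    rw [e]
  refine ⟨a1, a2, mz, fun F hF hb => ?_, fun g hg hc => ?_⟩
  · exact (a4 F hF hb).congr fun n => fam_mint H n hF
  -- continuous functions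
  obtain ⟨E, hE0, hE⟩ := fam_lip h1 H
  set Z : ℝ := ∫ x, |x| ∂ν with hZ
  have hZ0 : 0 ≤ Z := integral_nonneg fun _ => abs_nonneg _
  obtain ⟨R, hR⟩ := hc.isCompact.isBounded.subset_closedBall 0
  set W : ℝ := ∫ _ in Metric.closedBall (0 : ℝ) R, (1 : ℝ) with hW
  have hW0 : 0 ≤ W := integral_nonneg fun _ => zero_le_one
  rw [Metric.tendsto_atTop]
  intro ε hε
  set δ : ℝ := ε / (2 * (E + Z * W + 1)) with hδ
  have hδ0 : 0 < δ := by positivity
  obtain ⟨g', hg', hgd, hgs⟩ := hg.exists_contDiff_approx (⊤ : ℕ∞) (ε := fun _ => δ)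
    continuous_const (fun _ => hδ0)
  have hg's : ContDiff ℝ ∞ g' := hg'
  have hc' : HasCompactSupport g' := hc.mono hgs
  have hdd : ∀ x, |g x - g' x| ≤ δ := fun x => by
    have := hgd x
    rw [dist_comm, Real.dist_eq] at this
    exact this.le
  have c2 : |(∫ t, g' t * HH ν t) - ∫ t, g t * HH ν t| ≤ δ * (Z * W) := by
    rw [← integral_sub (b3 g' hg's.continuous hc').1 (b3 g hg hc).1, ← Real.norm_eq_abs]
    have e0 : ∀ t, t ∉ Metric.closedBall (0 : ℝ) R → g' t * HH ν t - g t * HH ν t = 0 := by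
      intro t ht
      have h0 : g t = 0 := image_eq_zero_of_notMem_tsupport fun h => ht (hR h)
      have h0' : g' t = 0 := by
        by_contra h
        exact (hgs h) h0
      rw [h0, h0', sub_self]
    rw [← setIntegral_eq_integral_of_forall_compl_eq_zero e0]
    have hfin : volume (Metric.closedBall (0 : ℝ) R) < ⊤ :=
      (isCompact_closedBall 0 R).measure_lt_top
    refine (norm_setIntegral_le_of_norm_le_const hfin (C := δ * Z) fun t _ => ?_).trans ?_
    · rw [← sub_mul, norm_mul, Real.norm_eq_abs, Real.norm_eq_abs]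
      refine mul_le_mul ?_ (b2 t) (abs_nonneg _) hδ0.le
      rw [abs_sub_comm]
      exact hdd t
    · have : W = (volume (Metric.closedBall (0 : ℝ) R)).toReal := by
        rw [hW, setIntegral_const]
        simp [Measure.real]
      rw [this]
      refine le_of_eq ?_
      simp only [Measure.real]
      ring
  obtain ⟨N1, hN1⟩ := (Metric.tendsto_atTop.1 (sm g' hg's hc')) (ε / 2) (by positivity)
  obtain ⟨N2, hN2⟩ := eventually_atTop.1 hE
  refine ⟨max N1 N2, fun n hn => ?_⟩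
  have d2 := hN2 n ((le_max_right _ _).trans hn) g g' δ hg hg's.continuous hδ0.le hdd
  have d1 := hN1 n ((le_max_left _ _).trans hn)
  rw [Real.dist_eq] at d1 ⊢
  have t1 : |EE φ lam u n g - ∫ t, g t * HH ν t| ≤
      |EE φ lam u n g - EE φ lam u n g'| +
      |EE φ lam u n g' - ∫ t, g' t * HH ν t| +
      |(∫ t, g' t * HH ν t) - ∫ t, g t * HH ν t| := by
    have e : EE φ lam u n g - ∫ t, g t * HH ν t =
        (EE φ lam u n g - EE φ lam u n g') +
        (EE φ lam u n g' - ∫ t, g' t * HH ν t) +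
        ((∫ t, g' t * HH ν t) - ∫ t, g t * HH ν t) := by ring
    rw [e]
    exact (abs_add_le _ _).trans (add_le_add_left (abs_add_le _ _) _)
  have t2 : δ * E + δ * (Z * W) < ε / 2 := by
    have : δ * (2 * (E + Z * W + 1)) = ε := by
      rw [hδ]
      field_simp
    nlinarith
  linarith

end

end Pool.Agent.E8helper19.EN
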