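import Mathlib

/-!
# Project EN: statement of the compactness piece (MP_a52643_an)

Nothing is proved here.
-/

set_option autoImplicit false
open MeasureTheory Filter Topology Complex Set ProbabilityTheory
open scoped ContDiff ENNReal NNReal Real

namespace Pool.Agent.E8helper19.EN

noncomputable section

/-- EN5. Compactness: finite measures on the line of equal mass, with bounded second moments, have
a vaguely convergent subsequence. -/
def S_CPT : Prop :=
  ∀ (μ : ℕ → Measure ℝ) (m A : ℝ), (∀ n, IsFiniteMeasure (μ n)) →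
    (∀ᶠ n in atTop, Integrable (fun x => x ^ 2) (μ n) ∧ ∫ x, x ^ 2 ∂(μ n) ≤ m) →
    (∀ n, (μ n).real univ = A) →
    ∃ (σ : ℕ → ℕ) (ν : Measure ℝ), StrictMono σ ∧ IsFiniteMeasure ν ∧
      ∀ g : ℝ → ℝ, Continuous g → HasCompactSupport g →
        Tendsto (fun n => ∫ x, g x ∂(μ (σ n))) atTop (𝓝 (∫ x, g x ∂ν))

end

end Pool.Agent.E8helper19.EN
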