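import Pool.Agent.E8helper19.EN.Fam
import Pool.Agent.E8helper19.EN.Stm2

/-!
# Project EN: the normal law
-/

set_option autoImplicit false
open MeasureTheory Filter Topology Complex Set ProbabilityTheory
open scoped ContDiff ENNReal NNReal Real

namespace Pool.Agent.E8helper19.EN

noncomputable section

variable {ι : Type} [Fintype ι] {Ω : ι → Set ℂ} {ρ φ : ι → ℂ → ℝ} {lam : ℕ → ℝ}
  {u : ι → ℕ → ℂ → ℝ}

theorem fam_gauss [Nonempty ι] (h1 : S_IBP) (h2 : S_VAG) (h3 : S_FUB) (h4 : S_GAUSS)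
    (H : ∀ i, Hy (Ω i) (ρ i) lam (u i) (φ i)) {ν : Measure ℝ}
    (hν : IsFiniteMeasure ν) (hlim : ∀ g : ℝ → ℝ, Continuous g → HasCompactSupport g →
      Tendsto (fun n => VV ρ φ u n g) atTop (𝓝 (∫ x, g x ∂ν))) {v : ℝ≥0} (hv : v ≠ 0) :
    ν = ν univ • gaussianReal 0 v ↔ ∀ g : ℝ → ℝ, Continuous g → HasCompactSupport g →
      Tendsto (fun n => EE φ lam u n g - v * VV ρ φ u n g) atTop (𝓝 0) := by
  obtain ⟨-, a2, a3, -, a5⟩ := fam_main h1 h2 h3 H hν hlim
  rw [← h4 ν v hν hv a2 a3]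
  constructor
  · intro h g hg hc
    have t := (a5 g hg hc).sub ((hlim g hg hc).const_mul (v : ℝ))
    rwa [h g hg hc, sub_self] at t
  · intro h g hg hc
    have t := (a5 g hg hc).sub ((hlim g hg hc).const_mul (v : ℝ))
    have := tendsto_nhds_unique t (h g hg hc)
    linarith

lemma fam_mass_nonneg (H : ∀ i, Hy (Ω i) (ρ i) lam (u i) (φ i)) :
    0 ≤ ∑ i, ∫ z, φ i z * ρ i z := by
  refine Finset.sum_nonneg fun i _ => integral_nonneg fun z => ?_
  show 0 ≤ φ i z * ρ i z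
  by_cases hz : z ∈ Ω i
  · exact mul_nonneg ((H i).φ0 z) ((H i).pρ z hz).le
  · rw [image_eq_zero_of_notMem_tsupport fun h => hz ((H i).tφ h), zero_mul]

theorem fam_full [Nonempty ι] (h1 : S_IBP) (h2 : S_VAG) (h3 : S_FUB) (h4 : S_GAUSS) (h5 : S_CPT)
    (H : ∀ i, Hy (Ω i) (ρ i) lam (u i) (φ i)) {v : ℝ≥0} (hv : v ≠ 0) :
    (∀ g : ℝ → ℝ, Continuous g → (∃ C : ℝ, ∀ x, |g x| ≤ C) →
      Tendsto (fun n => VV ρ φ u n g) atTop
        (𝓝 ((∑ i, ∫ z, φ i z * ρ i z) * ∫ x, g x ∂(gaussianReal 0 v)))) ↔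
    ∀ g : ℝ → ℝ, Continuous g → HasCompactSupport g →
      Tendsto (fun n => EE φ lam u n g - v * VV ρ φ u n g) atTop (𝓝 0) := by
  set A : ℝ := ∑ i, ∫ z, φ i z * ρ i z with hA
  have hA0 : 0 ≤ A := fam_mass_nonneg H
  set γ : Measure ℝ := gaussianReal 0 v with hγ
  constructor
  · intro h
    have hν : IsFiniteMeasure (ENNReal.ofReal A • γ) := Measure.smul_finite _ ENNReal.ofReal_ne_top
    have hi : ∀ g : ℝ → ℝ, ∫ x, g x ∂(ENNReal.ofReal A • γ) = A * ∫ x, g x ∂γ := fun g => by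
      rw [integral_smul_measure, ENNReal.toReal_ofReal hA0, smul_eq_mul]
    refine (fam_gauss h1 h2 h3 h4 H hν (fun g hg hc => ?_) hv).1 ?_
    · rw [hi g]
      obtain ⟨C, hC⟩ := hc.exists_bound_of_continuous hg
      exact h g hg ⟨C, fun x => by simpa using hC x⟩
    · rw [Measure.smul_apply, measure_univ, smul_eq_mul, mul_one]
  · intro h g hg hb
    obtain ⟨C, hC⟩ := hb
    refine tendsto_of_subseq_tendsto fun ns hns => ?_
    obtain ⟨τ, hτ, hnτ⟩ := strictMono_subseq_of_tendsto_atTop hns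
    obtain ⟨K, hK0, hK⟩ := fam_unif H
    obtain ⟨σ, ν, hσ, hν, hlim⟩ := h5 (fun n => MM Ω ρ φ u (ns (τ n))) K A
      (fun n => fam_fin H _)
      (by
        filter_upwards [hnτ.tendsto_atTop.eventually hK] with n hn
        exact ⟨fam_int H _ (by fun_prop), hn.1⟩)
      (fun n => by
        have := fam_mint H (ns (τ n)) (g := fun _ => 1) continuous_const
        unfold VV at this
        simpa using this)
    have hs : StrictMono (fun n => ns (τ (σ n))) := hnτ.comp hσ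
    have hlim' : ∀ g : ℝ → ℝ, Continuous g → HasCompactSupport g →
        Tendsto (fun n => VV ρ φ (fun i n => u i (ns (τ (σ n)))) n g) atTop
          (𝓝 (∫ x, g x ∂ν)) := fun g hg hc =>
      (hlim g hg hc).congr fun n => fam_mint H (ns (τ (σ n))) hg
    have H' : ∀ i, Hy (Ω i) (ρ i) (fun n => lam (ns (τ (σ n)))) (fun n => u i (ns (τ (σ n))))
        (φ i) := fun i => (H i).sub hs
    have hgs := (fam_gauss h1 h2 h3 h4 H' hν hlim' hv).2 fun g hg hc =>
      (h g hg hc).comp hs.tendsto_atTop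
    obtain ⟨b1, -, -, b4, -⟩ := fam_main h1 h2 h3 H' hν hlim'
    refine ⟨fun n => τ (σ n), ?_⟩
    have t := b4 g hg ⟨C, fun x => (hC x).trans (by
      have : 0 ≤ C := (abs_nonneg _).trans (hC 0)
      nlinarith [abs_nonneg x])⟩
    have e : ∫ x, g x ∂ν = A * ∫ x, g x ∂γ := by
      rw [hgs, integral_smul_measure, smul_eq_mul, hA, ← b1]
      rfl
    rw [e] at t
    exact t

end

end Pool.Agent.E8helper19.EN
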