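import Pool.Agent.E8helper19.EN.Stm

/-!
# Project EN: the energy law determines the law of the values (MP_a52643_an)

Nothing is proved here.
-/

set_option autoImplicit false
open MeasureTheory Filter Topology Complex Set ProbabilityTheory
open scoped ContDiff ENNReal NNReal Real

namespace Pool.Agent.E8helper19.EN

noncomputable section

/-- EN6. `H` determines the law, up to an atom at zero, and hence the law. -/
def S_INV : Prop :=
  ∀ ν μ : Measure ℝ, IsFiniteMeasure ν → IsFiniteMeasure μ → Integrable (fun x => x) ν →
    Integrable (fun x => x) μ → ν univ = μ univ →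
    (∀ g : ℝ → ℝ, Continuous g → HasCompactSupport g →
      ∫ t, g t * HH ν t = ∫ t, g t * HH μ t) → ν = μ

end

end Pool.Agent.E8helper19.EN
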