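import Pool.Agent.E8helper19.EN.Fin
import Pool.Agent.E8helper19.EN.Stm3

/-!
# Project EN: the energy law determines the law of the values
-/

set_option autoImplicit false
open MeasureTheory Filter Topology Complex Set ProbabilityTheory
open scoped ContDiff ENNReal NNReal Real

namespace Pool.Agent.E8helper19.EN

noncomputable section

variable {ι : Type} [Fintype ι] {Ω : ι → Set ℂ} {ρ φ : ι → ℂ → ℝ} {lam : ℕ → ℝ}
  {u : ι → ℕ → ℂ → ℝ}

theorem fam_conv [Nonempty ι] (h1 : S_IBP) (h2 : S_VAG) (h3 : S_FUB) (h5 : S_CPT) (h6 : S_INV)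
    (H : ∀ i, Hy (Ω i) (ρ i) lam (u i) (φ i)) {μ : Measure ℝ} (hμ : IsFiniteMeasure μ)
    (hm : μ.real univ = ∑ i, ∫ z, φ i z * ρ i z) (hi : Integrable (fun x => x) μ) :
    (∀ g : ℝ → ℝ, Continuous g → (∃ C : ℝ, ∀ x, |g x| ≤ C) →
      Tendsto (fun n => VV ρ φ u n g) atTop (𝓝 (∫ x, g x ∂μ))) ↔
    ∀ g : ℝ → ℝ, Continuous g → HasCompactSupport g →
      Tendsto (fun n => EE φ lam u n g) atTop (𝓝 (∫ t, g t * HH μ t)) := by
  constructor
  · intro h
    exact (fam_main h1 h2 h3 H hμ (fun g hg hc => by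
      obtain ⟨C, hC⟩ := hc.exists_bound_of_continuous hg
      exact h g hg ⟨C, fun x => by simpa using hC x⟩)).2.2.2.2
  · intro h g hg hb
    obtain ⟨C, hC⟩ := hb
    refine tendsto_of_subseq_tendsto fun ns hns => ?_
    obtain ⟨τ, hτ, hnτ⟩ := strictMono_subseq_of_tendsto_atTop hns
    obtain ⟨K, hK0, hK⟩ := fam_unif H
    obtain ⟨σ, ν, hσ, hν, hlim⟩ := h5 (fun n => MM Ω ρ φ u (ns (τ n))) K
      (∑ i, ∫ z, φ i z * ρ i z) (fun n => fam_fin H _)
      (by
        filter_upwards [hnτ.tendsto_atTop.eventually hK] with n hn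
        exact ⟨fam_int H _ (by fun_prop), hn.1⟩)
      (fun n => by
        have := fam_mint H (ns (τ n)) (g := fun _ => 1) continuous_const
        unfold VV at this
        simpa using this)
    have hs : StrictMono (fun n => ns (τ (σ n))) := hnτ.comp hσ
    have hlim' : ∀ g : ℝ → ℝ, Continuous g → HasCompactSupport g →
        Tendsto (fun n => VV ρ φ (fun i n => u i (ns (τ (σ n)))) n g) atTop
          (𝓝 (∫ x, g x ∂ν)) := fun g hg hc =>
      (hlim g hg hc).congr fun n => fam_mint H (ns (τ (σ n))) hg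
    have H' : ∀ i, Hy (Ω i) (ρ i) (fun n => lam (ns (τ (σ n)))) (fun n => u i (ns (τ (σ n))))
        (φ i) := fun i => (H i).sub hs
    obtain ⟨b1, b2, -, b4, b5⟩ := fam_main h1 h2 h3 H' hν hlim'
    have ix : Integrable (fun x : ℝ => x) ν := by
      have h : Integrable (fun x : ℝ => 1 + x ^ 2) ν := (integrable_const 1).add b2
      refine h.mono' (by fun_prop) (Eventually.of_forall fun x => ?_)
      rw [Real.norm_eq_abs, abs_le]
      constructor <;> nlinarith [sq_nonneg (x - 1), sq_nonneg (x + 1)]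
    have e : ν = μ := by
      refine h6 ν μ hν hμ ix hi ?_ fun g hg hc => ?_
      · have : ν.real univ = μ.real univ := by rw [b1, hm]
        exact (measureReal_eq_measureReal_iff (measure_ne_top _ _) (measure_ne_top _ _)).1 this
      · exact tendsto_nhds_unique (b5 g hg hc) ((h g hg hc).comp hs.tendsto_atTop)
    refine ⟨fun n => τ (σ n), ?_⟩
    have t := b4 g hg ⟨C, fun x => (hC x).trans (by
      have : 0 ≤ C := (abs_nonneg _).trans (hC 0)
      nlinarith [abs_nonneg x])⟩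
    rw [e] at t
    exact t

theorem fam_tfae [Nonempty ι] (h1 : S_IBP) (h2 : S_VAG) (h3 : S_FUB) (h4 : S_GAUSS) (h5 : S_CPT)
    (h6 : S_INV) (H : ∀ i, Hy (Ω i) (ρ i) lam (u i) (φ i)) {v : ℝ≥0} (hv : v ≠ 0) :
    List.TFAE [
      ∀ g : ℝ → ℝ, Continuous g → (∃ C : ℝ, ∀ x, |g x| ≤ C) →
        Tendsto (fun n => VV ρ φ u n g) atTop
          (𝓝 ((∑ i, ∫ z, φ i z * ρ i z) * ∫ x, g x ∂(gaussianReal 0 v))),
      ∀ g : ℝ → ℝ, Continuous g → HasCompactSupport g →
        Tendsto (fun n => EE φ lam u n g) atTop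
          (𝓝 (v * ((∑ i, ∫ z, φ i z * ρ i z) * ∫ x, g x ∂(gaussianReal 0 v)))),
      ∀ g : ℝ → ℝ, Continuous g → HasCompactSupport g →
        Tendsto (fun n => EE φ lam u n g - v * VV ρ φ u n g) atTop (𝓝 0)] := by
  have e13 := fam_full h1 h2 h3 h4 h5 H hv
  set A : ℝ := ∑ i, ∫ z, φ i z * ρ i z with hA
  have hA0 : 0 ≤ A := fam_mass_nonneg H
  set γ : Measure ℝ := gaussianReal 0 v with hγ
  set μ : Measure ℝ := ENNReal.ofReal A • γ with hμd
  have hμ : IsFiniteMeasure μ := Measure.smul_finite _ ENNReal.ofReal_ne_top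
  have hu : μ univ = ENNReal.ofReal A := by
    rw [hμd, Measure.smul_apply, measure_univ, smul_eq_mul, mul_one]
  have hi : ∀ g : ℝ → ℝ, ∫ x, g x ∂μ = A * ∫ x, g x ∂γ := fun g => by
    rw [hμd, integral_smul_measure, ENNReal.toReal_ofReal hA0, smul_eq_mul]
  have q2 : Integrable (fun x : ℝ => x ^ 2) γ := by
    have := memLp_id_gaussianReal (μ := 0) (v := v) 2
    have h := this.integrable_sq
    simpa using h
  have q1 : Integrable (fun x : ℝ => x) γ := by
    have h : Integrable (fun x : ℝ => 1 + x ^ 2) γ := (integrable_const 1).add q2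
    refine h.mono' (by fun_prop) (Eventually.of_forall fun x => ?_)
    rw [Real.norm_eq_abs, abs_le]
    constructor <;> nlinarith [sq_nonneg (x - 1), sq_nonneg (x + 1)]
  have i1 : Integrable (fun x : ℝ => x) μ := q1.smul_measure ENNReal.ofReal_ne_top
  have i2 : Integrable (fun x : ℝ => x ^ 2) μ := q2.smul_measure ENNReal.ofReal_ne_top
  have m1 : ∫ x, x ∂μ = 0 := by
    rw [hi (fun x => x), integral_id_gaussianReal, mul_zero]
  have hH : ∀ g : ℝ → ℝ, Continuous g → HasCompactSupport g →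
      ∫ t, g t * HH μ t = v * (A * ∫ x, g x ∂γ) := fun g hg hc => by
    rw [(h4 μ v hμ hv i2 m1).2 (by rw [hu]) g hg hc, hi]
  have e12 := fam_conv h1 h2 h3 h5 h6 H hμ (by
    rw [Measure.real, hu, ENNReal.toReal_ofReal hA0]) i1
  tfae_have 1 ↔ 3 := e13
  tfae_have 1 ↔ 2 := by
    constructor
    · intro h g hg hc
      rw [← hH g hg hc]
      exact e12.1 (fun g hg hb => by rw [hi]; exact h g hg hb) g hg hc
    · intro h g hg hb
      rw [← hi]
      exact e12.2 (fun g hg hc => by rw [hH g hg hc]; exact h g hg hc) g hg hb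
  tfae_finish

end

end Pool.Agent.E8helper19.EN
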