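import Pool.Agent.E8helper19.EN.Stm
import Pool.Agent.Y139.PD.E

/-!
# Project EN: assembly
-/

set_option autoImplicit false
open MeasureTheory Filter Topology Complex Set ProbabilityTheory
open scoped ContDiff ENNReal NNReal Real

namespace Pool.Agent.E8helper19.EN

noncomputable section

/-- the hypotheses -/
structure Hy (Ω : Set ℂ) (ρ : ℂ → ℝ) (lam : ℕ → ℝ) (u : ℕ → ℂ → ℝ) (φ : ℂ → ℝ) : Prop where
  oΩ : IsOpen Ω
  sρ : ContDiffOn ℝ ∞ ρ Ω
  pρ : ∀ z ∈ Ω, 0 < ρ z
  ll : Tendsto lam atTop atTop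
  su : ∀ n, ContDiffOn ℝ ∞ (u n) Ω
  eq : ∀ n, ∀ z ∈ Ω, lapl (u n) z + lam n * (ρ z * u n z) = 0
  bd : ∀ K : Set ℂ, IsCompact K → K ⊆ Ω → ∃ C : ℝ, ∀ᶠ n in atTop, ∫ z in K, u n z ^ 2 ≤ C
  sφ : ContDiff ℝ ∞ φ
  cφ : HasCompactSupport φ
  tφ : tsupport φ ⊆ Ω
  φ0 : ∀ z, 0 ≤ φ z

variable {Ω : Set ℂ} {ρ : ℂ → ℝ} {lam : ℕ → ℝ} {u : ℕ → ℂ → ℝ} {φ : ℂ → ℝ}

/-- energy at the values -/
def En (φ : ℂ → ℝ) (l : ℝ) (u : ℂ → ℝ) (g : ℝ → ℝ) : ℝ :=
  l⁻¹ * ∫ z, φ z * (g (u z) * gsq u z)

lemma d_smooth {f : ℂ → ℝ} (hf : ContDiff ℝ ∞ f) (v : ℂ) :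
    ContDiff ℝ ∞ (fun w => fderiv ℝ f w v) :=
  (contDiff_infty_iff_fderiv.1 hf).2.clm_apply contDiff_const

lemma lapl_cont {f : ℂ → ℝ} (hf : ContDiff ℝ ∞ f) : Continuous (lapl f) := by
  unfold lapl
  exact (d_smooth (d_smooth hf 1) 1).continuous.add (d_smooth (d_smooth hf I) I).continuous

lemma lapl_zero {f : ℂ → ℝ} {z : ℂ} (hz : z ∉ tsupport f) : lapl f z = 0 := by
  have h : ∀ v : ℂ, (fun w => fderiv ℝ f w v) =ᶠ[𝓝 z] fun _ => 0 := by
    intro v
    filter_upwards [(isClosed_tsupport f).isOpen_compl.mem_nhds hz] with w hw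
    rw [fderiv_of_notMem_tsupport (𝕜 := ℝ) hw]
    simp
  unfold lapl
  rw [(h 1).fderiv_eq, (h I).fderiv_eq]
  simp

/-- integrals of functions vanishing off a compact set -/
lemma int_on {S : Set ℂ} (hS : IsCompact S) {F : ℂ → ℝ} (hF : ContinuousOn F S)
    (h0 : ∀ z, z ∉ S → F z = 0) : Integrable F ∧ ∫ z, F z = ∫ z in S, F z := by
  have h1 : IntegrableOn F S := hF.integrableOn_compact hS
  have h2 : Function.support F ⊆ S := by
    intro z hz
    by_contra h
    exact hz (h0 z h)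
  exact ⟨(integrableOn_iff_integrable_of_support_subset h2).1 h1,
    (setIntegral_eq_integral_of_forall_compl_eq_zero h0).symm⟩

lemma Hy.bound (H : Hy Ω ρ lam u φ) : ∃ M : ℝ, 0 ≤ M ∧ ∀ z ∈ tsupport φ,
    |φ z * ρ z| ≤ M ∧ |lapl φ z| ≤ M := by
  have h1 : ContinuousOn (fun z => φ z * ρ z) (tsupport φ) :=
    H.sφ.continuous.continuousOn.mul (H.sρ.continuousOn.mono H.tφ)
  obtain ⟨M1, hM1⟩ := H.cφ.isCompact.exists_bound_of_continuousOn h1
  obtain ⟨M2, hM2⟩ := H.cφ.isCompact.exists_bound_of_continuousOn (lapl_cont H.sφ).continuousOn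
  refine ⟨max 0 (max M1 M2), le_max_left _ _, fun z hz => ⟨?_, ?_⟩⟩
  · exact (hM1 z hz).trans ((le_max_left _ _).trans (le_max_right _ _))
  · exact (hM2 z hz).trans ((le_max_right _ _).trans (le_max_right _ _))

/-- bounds uniform in `n` -/
lemma Hy.unif (H : Hy Ω ρ lam u φ) : ∃ K : ℝ, 0 ≤ K ∧ ∀ᶠ n in atTop,
    ∫ z, φ z * (ρ z * u n z ^ 2) ≤ K ∧
    ∀ (P : ℝ → ℝ) (J : ℝ), 0 ≤ J → Continuous P → (∀ x, |P x| ≤ J * (1 + x ^ 2)) →
      |∫ z, lapl φ z * P (u n z)| ≤ K * J := by
  obtain ⟨M, hM0, hM⟩ := H.bound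
  obtain ⟨C, hC⟩ := H.bd _ H.cφ.isCompact H.tφ
  set S := tsupport φ with hS
  have hSc : IsCompact S := H.cφ.isCompact
  set A : ℝ := ∫ _ in S, (1 : ℝ) with hA
  have hA0 : 0 ≤ A := integral_nonneg fun _ => zero_le_one
  refine ⟨M * (A + max C 0), by positivity, ?_⟩
  filter_upwards [hC] with n hn
  have cu : ContinuousOn (u n) S := (H.su n).continuousOn.mono H.tφ
  have iu2 : IntegrableOn (fun z => u n z ^ 2) S := (cu.pow 2).integrableOn_compact hSc
  have i1 : IntegrableOn (fun _ : ℂ => (1 : ℝ)) S := continuousOn_const.integrableOn_compact hSc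
  constructor
  · have h0 : ∀ z, z ∉ S → φ z * (ρ z * u n z ^ 2) = 0 := fun z hz => by
      rw [image_eq_zero_of_notMem_tsupport hz, zero_mul]
    have hc : ContinuousOn (fun z => φ z * (ρ z * u n z ^ 2)) S :=
      H.sφ.continuous.continuousOn.mul ((H.sρ.continuousOn.mono H.tφ).mul (cu.pow 2))
    rw [(int_on hSc hc h0).2]
    calc ∫ z in S, φ z * (ρ z * u n z ^ 2) ≤ ∫ z in S, M * u n z ^ 2 := by
          refine setIntegral_mono_on (hc.integrableOn_compact hSc) (iu2.const_mul M)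
            hSc.measurableSet fun z hz => ?_
          have h2 := (le_abs_self _).trans (hM z hz).1
          nlinarith [sq_nonneg (u n z)]
      _ = M * ∫ z in S, u n z ^ 2 := integral_const_mul _ _
      _ ≤ M * (A + max C 0) := by
          refine mul_le_mul_of_nonneg_left ?_ hM0
          exact hn.trans ((le_max_left _ _).trans (by linarith))
  · intro P J hJ hP hb
    have h0 : ∀ z, z ∉ S → lapl φ z * P (u n z) = 0 := fun z hz => by
      rw [lapl_zero hz, zero_mul]
    have hc : ContinuousOn (fun z => lapl φ z * P (u n z)) S :=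
      (lapl_cont H.sφ).continuousOn.mul (hP.comp_continuousOn cu)
    rw [(int_on hSc hc h0).2, ← Real.norm_eq_abs]
    calc ‖∫ z in S, lapl φ z * P (u n z)‖ ≤ ∫ z in S, M * (J * (1 + u n z ^ 2)) := by
          refine norm_integral_le_of_norm_le ((i1.add iu2).const_mul J |>.const_mul M) ?_
          refine (ae_restrict_mem hSc.measurableSet).mono fun z hz => ?_
          rw [norm_mul, Real.norm_eq_abs, Real.norm_eq_abs]
          exact mul_le_mul (hM z hz).2 (hb _) (abs_nonneg _) hM0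
      _ = M * (J * (A + ∫ z in S, u n z ^ 2)) := by
          rw [integral_const_mul, integral_const_mul, integral_add i1 iu2]
      _ ≤ M * (A + max C 0) * J := by
          have h3 : ∫ z in S, u n z ^ 2 ≤ max C 0 := hn.trans (le_max_left _ _)
          have h4 : J * (A + ∫ z in S, u n z ^ 2) ≤ J * (A + max C 0) :=
            mul_le_mul_of_nonneg_left (by linarith) hJ
          nlinarith [mul_le_mul_of_nonneg_left h4 hM0]

/-- the identity, divided by `λ` -/
lemma Hy.id (h1 : S_IBP) (H : Hy Ω ρ lam u φ) {n : ℕ} (hl : 0 < lam n) {G : ℝ → ℝ}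
    (hG : ContDiff ℝ ∞ G) : Integrable (fun z => φ z * (deriv G (u n z) * gsq (u n) z)) ∧
    En φ (lam n) (u n) (deriv G) = (∫ z, φ z * (ρ z * (u n z * G (u n z)))) +
      (lam n)⁻¹ * ∫ z, lapl φ z * ∫ t in (0 : ℝ)..u n z, G t := by
  obtain ⟨i1, -, -, e⟩ := h1 Ω ρ (u n) φ (lam n) H.oΩ H.sρ (H.su n) (H.eq n) H.sφ H.cφ H.tφ G hG
  refine ⟨i1, ?_⟩
  unfold En
  rw [e]
  field_simp

open Pool.Agent.Y139.PD in
lemma Hy.mu_i (H : Hy Ω ρ lam u φ) (n : ℕ) {g : ℝ → ℝ} (hg : Continuous g) :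
    Integrable g (mu Ω φ ρ (u n)) := by
  have cu : ContinuousOn (u n) Ω := (H.su n).continuousOn
  unfold mu
  rw [integrable_map_measure hg.aestronglyMeasurable (mu_ae H.oΩ cu)]
  have cq : ContinuousOn (fun z => φ z * ρ z) Ω :=
    H.sφ.continuous.continuousOn.mul H.sρ.continuousOn
  rw [integrable_withDensity_iff_integrable_smul₀'
    ((cq.aemeasurable H.oΩ.measurableSet).ennreal_ofReal)
    (ae_of_all _ fun _ => ENNReal.ofReal_lt_top)]
  have h0 : ∀ z, z ∉ tsupport φ → φ z * ρ z * g (u n z) = 0 := fun z hz => by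
    rw [image_eq_zero_of_notMem_tsupport hz, zero_mul, zero_mul]
  have hc : ContinuousOn (fun z => φ z * ρ z * g (u n z)) (tsupport φ) :=
    (cq.mono H.tφ).mul (hg.comp_continuousOn (cu.mono H.tφ))
  have h1 := (int_on H.cφ.isCompact hc h0).1
  refine (h1.integrableOn (s := Ω)).congr ?_
  refine (ae_restrict_mem H.oΩ.measurableSet).mono fun z hz => ?_
  simp only [Function.comp, smul_eq_mul]
  rw [ENNReal.toReal_ofReal (mul_nonneg (H.φ0 z) (H.pρ z hz).le)]

/-- total energy is bounded -/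
lemma Hy.tot (h1 : S_IBP) (H : Hy Ω ρ lam u φ) : ∃ E : ℝ, 0 ≤ E ∧ ∀ᶠ n in atTop, 0 < lam n ∧
    Integrable (fun z => φ z * gsq (u n) z) ∧ (lam n)⁻¹ * ∫ z, φ z * gsq (u n) z ≤ E := by
  obtain ⟨K, hK0, hK⟩ := H.unif
  refine ⟨2 * K, by positivity, ?_⟩
  filter_upwards [hK, H.ll.eventually_ge_atTop 1] with n hn hl
  have hl0 : 0 < lam n := by linarith
  have hG : ContDiff ℝ ∞ (fun x : ℝ => x) := contDiff_id
  obtain ⟨i1, e⟩ := H.id h1 hl0 hG
  have hd : deriv (fun x : ℝ => x) = fun _ => 1 := by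
    funext x
    simp
  rw [hd] at i1 e
  simp only [one_mul] at i1
  refine ⟨hl0, i1, ?_⟩
  unfold En at e
  simp only [one_mul] at e
  rw [e]
  have hP : ∀ x : ℝ, ∫ t in (0 : ℝ)..x, t = x ^ 2 / 2 := by
    intro x
    rw [integral_id]
    ring
  have h2 := hn.2 (fun x => ∫ t in (0 : ℝ)..x, t) 1 zero_le_one (by
    simp only [hP]
    fun_prop) (fun x => by
    rw [hP, abs_of_nonneg (by positivity)]
    nlinarith [sq_nonneg x])
  have h3 : (lam n)⁻¹ ≤ 1 := inv_le_one_of_one_le₀ hl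
  have h4 : (lam n)⁻¹ * (∫ z, lapl φ z * ∫ t in (0 : ℝ)..u n z, t) ≤ K := by
    calc (lam n)⁻¹ * (∫ z, lapl φ z * ∫ t in (0 : ℝ)..u n z, t)
        ≤ (lam n)⁻¹ * |∫ z, lapl φ z * ∫ t in (0 : ℝ)..u n z, t| :=
          mul_le_mul_of_nonneg_left (le_abs_self _) (by positivity)
      _ ≤ 1 * (K * 1) := mul_le_mul h3 h2 (abs_nonneg _) zero_le_one
      _ = K := by ring
  have h5 : ∫ z, φ z * (ρ z * (u n z * u n z)) ≤ K := by
    refine le_trans (le_of_eq ?_) hn.1
    refine integral_congr_ae (Eventually.of_forall fun z => ?_)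
    simp only
    ring
  linarith

/-- everything about limit laws, for the whole sequence -/
theorem Hy.main (h1 : S_IBP) (h2 : S_VAG) (h3 : S_FUB) (H : Hy Ω ρ lam u φ) {ν : Measure ℝ}
    (hν : IsFiniteMeasure ν) (hlim : ∀ g : ℝ → ℝ, Continuous g → HasCompactSupport g →
      Tendsto (fun n => ∫ z, φ z * (g (u n z) * ρ z)) atTop (𝓝 (∫ x, g x ∂ν))) :
    ν.real univ = ∫ z, φ z * ρ z ∧ Integrable (fun x => x ^ 2) ν ∧ ∫ x, x ∂ν = 0 ∧
      ∀ g : ℝ → ℝ, Continuous g → HasCompactSupport g →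
        Tendsto (fun n => En φ (lam n) (u n) g) atTop (𝓝 (∫ t, g t * HH ν t)) := by
  have hT : Pool.Agent.Results.MP_a52643_an.AbsoluteContinuity.Test Ω φ :=
    ⟨H.sφ, H.cφ, H.tφ, H.φ0⟩
  obtain ⟨K, hK0, hK⟩ := H.unif
  have fin : ∀ n, IsFiniteMeasure (Pool.Agent.Y139.PD.mu Ω φ ρ (u n)) := fun n =>
    Pool.Agent.Y139.PD.mu_fin H.oΩ (H.su n).continuousOn hT H.sρ H.pρ
  have mint : ∀ (n : ℕ) {g : ℝ → ℝ}, Continuous g →
      ∫ x, g x ∂(Pool.Agent.Y139.PD.mu Ω φ ρ (u n)) = ∫ z, φ z * (ρ z * g (u n z)) := fun n g hg =>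
    Pool.Agent.Y139.PD.mu_int H.oΩ (H.su n).continuousOn hT H.sρ H.pρ hg
  obtain ⟨a1, a2, -, a4⟩ := h2 (fun n => Pool.Agent.Y139.PD.mu Ω φ ρ (u n)) ν K
    (∫ z, φ z * ρ z) fin hν
    (by
      filter_upwards [hK] with n hn
      refine ⟨H.mu_i n (by fun_prop), ?_⟩
      rw [mint n (by fun_prop)]
      exact hn.1)
    (fun n => by
      have := mint n (g := fun _ => 1) continuous_const
      simpa using this)
    (fun g hg hc => by
      refine (hlim g hg hc).congr fun n => ?_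
      rw [mint n hg]
      refine integral_congr_ae (Eventually.of_forall fun z => ?_)
      simp only
      ring)
  have ix : Integrable (fun x : ℝ => x) ν := by
    have h : Integrable (fun x : ℝ => 1 + x ^ 2) ν := (integrable_const 1).add a2
    refine h.mono' (by fun_prop) (Eventually.of_forall fun x => ?_)
    rw [Real.norm_eq_abs, abs_le]
    constructor <;> nlinarith [sq_nonneg (x - 1), sq_nonneg (x + 1)]
  have linv : Tendsto (fun n => (lam n)⁻¹) atTop (𝓝 0) := tendsto_inv_atTop_zero.comp H.ll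
  -- remainders tend to zero
  have rem : ∀ (P : ℝ → ℝ) (J : ℝ), 0 ≤ J → Continuous P → (∀ x, |P x| ≤ J * (1 + x ^ 2)) →
      Tendsto (fun n => (lam n)⁻¹ * ∫ z, lapl φ z * P (u n z)) atTop (𝓝 0) := by
    intro P J hJ hP hb
    have h : Tendsto (fun n => (lam n)⁻¹ * (K * J)) atTop (𝓝 0) := by
      have := linv.mul_const (K * J)
      rwa [zero_mul] at this
    refine squeeze_zero_norm' ?_ h
    filter_upwards [hK, H.ll.eventually_gt_atTop 0] with n hn hl
    rw [norm_mul, Real.norm_eq_abs, Real.norm_eq_abs, abs_of_pos (inv_pos.2 hl)]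
    exact mul_le_mul_of_nonneg_left (hn.2 P J hJ hP hb) (inv_pos.2 hl).le
  -- mean zero
  have mz : ∫ x, x ∂ν = 0 := by
    have l1 := a4 (fun x => x) continuous_id ⟨1, fun x => by linarith [abs_nonneg x]⟩
    have l2 := rem (fun x => x) 1 zero_le_one continuous_id (fun x => by
      rw [abs_le]
      constructor <;> nlinarith [sq_nonneg (x - 1), sq_nonneg (x + 1)])
    have l3 : Tendsto (fun n => ∫ x, x ∂(Pool.Agent.Y139.PD.mu Ω φ ρ (u n))) atTop (𝓝 (-0)) := by
      refine l2.neg.congr' ?_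
      filter_upwards [H.ll.eventually_gt_atTop 0] with n hl
      rw [mint n (g := fun x => x) continuous_id]
      have hG : ContDiff ℝ ∞ (fun _ : ℝ => (1 : ℝ)) := contDiff_const
      obtain ⟨-, e⟩ := H.id h1 hl hG
      unfold En at e
      simp only [deriv_const', zero_mul, mul_zero, integral_zero, mul_one,
        intervalIntegral.integral_const, sub_zero, smul_eq_mul] at e
      linarith
    rw [neg_zero] at l3
    exact tendsto_nhds_unique l1 l3
  obtain ⟨-, b2, b3⟩ := h3 ν hν ix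
  -- smooth functions
  have sm : ∀ g : ℝ → ℝ, ContDiff ℝ ∞ g → HasCompactSupport g →
      Tendsto (fun n => En φ (lam n) (u n) g) atTop (𝓝 (∫ t, g t * HH ν t)) := by
    intro g hg hc
    have gi : Integrable g := hg.continuous.integrable_of_hasCompactSupport hc
    set G : ℝ → ℝ := fun x => ∫ t in Iic x, g t with hGdef
    set J : ℝ := ∫ t, |g t| with hJ
    have hJ0 : 0 ≤ J := integral_nonneg fun _ => abs_nonneg _
    have hGb : ∀ x, |G x| ≤ J := fun x => by
      rw [← Real.norm_eq_abs]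
      refine (norm_integral_le_integral_norm _).trans ?_
      exact setIntegral_le_integral gi.norm (ae_of_all _ fun _ => norm_nonneg _)
    have hGe : ∀ x, G x = G 0 + ∫ t in (0 : ℝ)..x, g t := fun x => by
      have := intervalIntegral.integral_Iic_sub_Iic (f := g) (a := 0) (b := x) (μ := volume)
        gi.integrableOn gi.integrableOn
      simp only [hGdef]
      linarith
    have hGd : ∀ x, HasDerivAt G (g x) x := fun x => by
      have e : G = fun x => G 0 + ∫ t in (0 : ℝ)..x, g t := funext hGe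
      rw [e]
      exact (intervalIntegral.integral_hasDerivAt_right
        (hg.continuous.intervalIntegrable _ _)
        (hg.continuous.stronglyMeasurableAtFilter _ _) hg.continuous.continuousAt).const_add _
    have hGd' : deriv G = g := funext fun x => (hGd x).deriv
    have hGs : ContDiff ℝ ∞ G := by
      rw [contDiff_infty_iff_deriv]
      exact ⟨fun x => (hGd x).differentiableAt, by rw [hGd']; exact hg⟩
    have l1 := a4 (fun x => x * G x) (continuous_id.mul hGs.continuous) ⟨J, fun x => by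
      rw [abs_mul]
      have := hGb x
      nlinarith [abs_nonneg x, mul_le_mul_of_nonneg_left this (abs_nonneg x)]⟩
    have e1 : ∫ x, x * G x ∂ν = ∫ t, g t * HH ν t := (b3 g hg.continuous hc).2
    rw [e1] at l1
    have l2 := rem (fun x => ∫ t in (0 : ℝ)..x, G t) J hJ0
      (intervalIntegral.continuous_primitive (fun a b => hGs.continuous.intervalIntegrable a b) 0)
      (fun x => by
        have h := intervalIntegral.norm_integral_le_of_norm_le_const (a := 0) (b := x) (f := G)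
          (C := J) (fun t _ => by rw [Real.norm_eq_abs]; exact hGb t)
        rw [Real.norm_eq_abs, sub_zero] at h
        refine h.trans (mul_le_mul_of_nonneg_left ?_ hJ0)
        rw [abs_le]
        constructor <;> nlinarith [sq_nonneg (x - 1), sq_nonneg (x + 1)])
    have l3 := l1.add l2
    rw [add_zero] at l3
    refine l3.congr' ?_
    filter_upwards [H.ll.eventually_gt_atTop 0] with n hl
    obtain ⟨-, e⟩ := H.id h1 hl hGs
    rw [hGd'] at e
    rw [e, mint n (g := fun x => x * G x) (continuous_id.mul hGs.continuous)]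
  refine ⟨a1, a2, mz, fun g hg hc => ?_⟩
  -- continuous functions
  obtain ⟨E, hE0, hE⟩ := H.tot h1
  set Z : ℝ := ∫ x, |x| ∂ν with hZ
  have hZ0 : 0 ≤ Z := integral_nonneg fun _ => abs_nonneg _
  obtain ⟨R, hR⟩ := hc.isCompact.isBounded.subset_closedBall 0
  set W : ℝ := ∫ _ in Metric.closedBall (0 : ℝ) R, (1 : ℝ) with hW
  have hW0 : 0 ≤ W := integral_nonneg fun _ => zero_le_one
  rw [Metric.tendsto_atTop]
  intro ε hε
  set δ : ℝ := ε / (2 * (E + Z * W + 1)) with hδ
  have hδ0 : 0 < δ := by positivity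
  obtain ⟨g', hg', hgd, hgs⟩ := hg.exists_contDiff_approx (⊤ : ℕ∞) (ε := fun _ => δ)
    continuous_const (fun _ => hδ0)
  have hg's : ContDiff ℝ ∞ g' := hg'
  have hc' : HasCompactSupport g' := hc.mono hgs
  have hdd : ∀ x, |g x - g' x| ≤ δ := fun x => by
    have := hgd x
    rw [dist_comm, Real.dist_eq] at this
    exact this.le
  have c1 : |∫ t, g' t * HH ν t - ∫ t, g t * HH ν t| = |(∫ t, g' t * HH ν t) - ∫ t, g t * HH ν t| ∨
      True := Or.inr trivial
  have c2 : |(∫ t, g' t * HH ν t) - ∫ t, g t * HH ν t| ≤ δ * (Z * W) := by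
    rw [← integral_sub (b3 g' hg's.continuous hc').1 (b3 g hg hc).1, ← Real.norm_eq_abs]
    have e0 : ∀ t, t ∉ Metric.closedBall (0 : ℝ) R → g' t * HH ν t - g t * HH ν t = 0 := by
      intro t ht
      have h0 : g t = 0 := image_eq_zero_of_notMem_tsupport fun h => ht (hR h)
      have h0' : g' t = 0 := by
        by_contra h
        exact (hgs h) h0
      rw [h0, h0', sub_self]
    rw [← setIntegral_eq_integral_of_forall_compl_eq_zero e0]
    have hfin : volume (Metric.closedBall (0 : ℝ) R) < ⊤ :=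
      (isCompact_closedBall 0 R).measure_lt_top
    refine (norm_setIntegral_le_of_norm_le_const hfin (C := δ * Z) fun t _ => ?_).trans ?_
    · rw [← sub_mul, norm_mul, Real.norm_eq_abs, Real.norm_eq_abs]
      refine mul_le_mul ?_ (b2 t) (abs_nonneg _) hδ0.le
      rw [abs_sub_comm]
      exact hdd t
    · have : W = (volume (Metric.closedBall (0 : ℝ) R)).toReal := by
        rw [hW, setIntegral_const]
        simp [Measure.real]
      rw [this]
      refine le_of_eq ?_
      simp only [Measure.real]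
      ring
  obtain ⟨N1, hN1⟩ := (Metric.tendsto_atTop.1 (sm g' hg's hc')) (ε / 2) (by positivity)
  obtain ⟨N2, hN2⟩ := eventually_atTop.1 hE
  refine ⟨max N1 N2, fun n hn => ?_⟩
  obtain ⟨hl, ig, hEn⟩ := hN2 n ((le_max_right _ _).trans hn)
  have d1 := hN1 n ((le_max_left _ _).trans hn)
  -- energies of `g` and `g'`
  have cu : ContinuousOn (u n) (tsupport φ) := (H.su n).continuousOn.mono H.tφ
  have ii : ∀ k : ℝ → ℝ, Continuous k → Integrable (fun z => φ z * (k (u n z) * gsq (u n) z)) := by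
    intro k hk
    have h0 : ∀ z, z ∉ tsupport φ → φ z * (k (u n z) * gsq (u n) z) = 0 := fun z hz => by
      rw [image_eq_zero_of_notMem_tsupport hz, zero_mul]
    have hd : ∀ v : ℂ, ContinuousOn (fun z => fderiv ℝ (u n) z v) Ω := fun v =>
      (((H.su n).fderiv_of_isOpen H.oΩ (m := ∞) (by simp)).continuousOn).clm_apply
        continuousOn_const
    have hgq : ContinuousOn (gsq (u n)) Ω := ((hd 1).pow 2).add ((hd I).pow 2)
    exact (int_on H.cφ.isCompact (H.sφ.continuous.continuousOn.mul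
      ((hk.comp_continuousOn cu).mul (hgq.mono H.tφ))) h0).1
  have d2 : |En φ (lam n) (u n) g - En φ (lam n) (u n) g'| ≤ δ * E := by
    unfold En
    rw [← mul_sub, ← integral_sub (ii g hg) (ii g' hg's.continuous), abs_mul,
      abs_of_pos (inv_pos.2 hl)]
    calc (lam n)⁻¹ * |∫ z, (φ z * (g (u n z) * gsq (u n) z) - φ z * (g' (u n z) * gsq (u n) z))|
        ≤ (lam n)⁻¹ * ∫ z, δ * (φ z * gsq (u n) z) := by
          refine mul_le_mul_of_nonneg_left ?_ (inv_pos.2 hl).le
          rw [← Real.norm_eq_abs]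
          refine norm_integral_le_of_norm_le (ig.const_mul δ) (Eventually.of_forall fun z => ?_)
          have e : φ z * (g (u n z) * gsq (u n) z) - φ z * (g' (u n z) * gsq (u n) z) =
              (g (u n z) - g' (u n z)) * (φ z * gsq (u n) z) := by ring
          have hq : 0 ≤ φ z * gsq (u n) z := mul_nonneg (H.φ0 z) (by unfold gsq; positivity)
          rw [e, norm_mul, Real.norm_eq_abs, Real.norm_eq_abs, abs_of_nonneg hq]
          exact mul_le_mul_of_nonneg_right (hdd _) hq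
      _ = δ * ((lam n)⁻¹ * ∫ z, φ z * gsq (u n) z) := by
          rw [integral_const_mul]
          ring
      _ ≤ δ * E := mul_le_mul_of_nonneg_left hEn hδ0.le
  rw [Real.dist_eq] at d1 ⊢
  have t1 : |En φ (lam n) (u n) g - ∫ t, g t * HH ν t| ≤
      |En φ (lam n) (u n) g - En φ (lam n) (u n) g'| +
      |En φ (lam n) (u n) g' - ∫ t, g' t * HH ν t| +
      |(∫ t, g' t * HH ν t) - ∫ t, g t * HH ν t| := by
    have e : En φ (lam n) (u n) g - ∫ t, g t * HH ν t =
        (En φ (lam n) (u n) g - En φ (lam n) (u n) g') +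
        (En φ (lam n) (u n) g' - ∫ t, g' t * HH ν t) +
        ((∫ t, g' t * HH ν t) - ∫ t, g t * HH ν t) := by ring
    rw [e]
    exact (abs_add_le _ _).trans (add_le_add_left (abs_add_le _ _) _)
  have t2 : δ * E + δ * (Z * W) < ε / 2 := by
    have : δ * (2 * (E + Z * W + 1)) = ε := by
      rw [hδ]
      field_simp
    nlinarith
  linarith

end

end Pool.Agent.E8helper19.EN
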