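import Mathlib

/-!
# Project EN: exact statements of the pieces (MP_a52643_an)

Energy at the values of eigenfunctions; Gaussian limit laws. Nothing is proved here.
-/

set_option autoImplicit false
open MeasureTheory Filter Topology Complex Set ProbabilityTheory
open scoped ContDiff ENNReal NNReal Real

namespace Pool.Agent.E8helper19.EN

noncomputable section

/-- the Laplacian `∂x² + ∂y²` -/
def lapl (f : ℂ → ℝ) (z : ℂ) : ℝ :=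
  fderiv ℝ (fun w => fderiv ℝ f w 1) z 1 + fderiv ℝ (fun w => fderiv ℝ f w I) z I

/-- `|∇f|²` -/
def gsq (f : ℂ → ℝ) (z : ℂ) : ℝ := fderiv ℝ f z 1 ^ 2 + fderiv ℝ f z I ^ 2

/-- `H(t) = ∫_{x > t} x dν(x)` -/
def HH (ν : Measure ℝ) (t : ℝ) : ℝ := ∫ x in Ioi t, x ∂ν

/-- EN1. Integration by parts. -/
def S_IBP : Prop :=
  ∀ (Ω : Set ℂ) (ρ u φ : ℂ → ℝ) (l : ℝ), IsOpen Ω → ContDiffOn ℝ ∞ ρ Ω → ContDiffOn ℝ ∞ u Ω →
    (∀ z ∈ Ω, lapl u z + l * (ρ z * u z) = 0) →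
    ContDiff ℝ ∞ φ → HasCompactSupport φ → tsupport φ ⊆ Ω →
    ∀ G : ℝ → ℝ, ContDiff ℝ ∞ G →
      Integrable (fun z => φ z * (deriv G (u z) * gsq u z)) ∧
      Integrable (fun z => φ z * (ρ z * (u z * G (u z)))) ∧
      Integrable (fun z => lapl φ z * ∫ t in (0 : ℝ)..u z, G t) ∧
      ∫ z, φ z * (deriv G (u z) * gsq u z) =
        l * (∫ z, φ z * (ρ z * (u z * G (u z)))) + ∫ z, lapl φ z * ∫ t in (0 : ℝ)..u z, G t

/-- EN2. Vague convergence with bounded second moments. -/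
def S_VAG : Prop :=
  ∀ (μ : ℕ → Measure ℝ) (ν : Measure ℝ) (m A : ℝ), (∀ n, IsFiniteMeasure (μ n)) →
    IsFiniteMeasure ν → (∀ᶠ n in atTop, Integrable (fun x => x ^ 2) (μ n) ∧
      ∫ x, x ^ 2 ∂(μ n) ≤ m) → (∀ n, (μ n).real univ = A) →
    (∀ g : ℝ → ℝ, Continuous g → HasCompactSupport g →
      Tendsto (fun n => ∫ x, g x ∂(μ n)) atTop (𝓝 (∫ x, g x ∂ν))) →
    ν.real univ = A ∧ Integrable (fun x => x ^ 2) ν ∧ ∫ x, x ^ 2 ∂ν ≤ m ∧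
      ∀ F : ℝ → ℝ, Continuous F → (∃ C : ℝ, ∀ x, |F x| ≤ C * (1 + |x|)) →
        Tendsto (fun n => ∫ x, F x ∂(μ n)) atTop (𝓝 (∫ x, F x ∂ν))

/-- EN3. Fubini. -/
def S_FUB : Prop :=
  ∀ ν : Measure ℝ, IsFiniteMeasure ν → Integrable (fun x => x) ν →
    Measurable (HH ν) ∧ (∀ t, |HH ν t| ≤ ∫ x, |x| ∂ν) ∧
    ∀ g : ℝ → ℝ, Continuous g → HasCompactSupport g →
      Integrable (fun t => g t * HH ν t) ∧
      ∫ x, x * (∫ t in Iic x, g t) ∂ν = ∫ t, g t * HH ν t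

/-- EN4. Characterisation of normal laws. -/
def S_GAUSS : Prop :=
  ∀ (ν : Measure ℝ) (v : ℝ≥0), IsFiniteMeasure ν → v ≠ 0 → Integrable (fun x => x ^ 2) ν →
    ∫ x, x ∂ν = 0 →
    ((∀ g : ℝ → ℝ, Continuous g → HasCompactSupport g →
      ∫ t, g t * HH ν t = v * ∫ x, g x ∂ν) ↔ ν = ν univ • gaussianReal 0 v)

end

end Pool.Agent.E8helper19.EN
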